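import Pool.Agent.Y349.BX.Up
import Pool.Agent.Y349.BX.Lo
import Pool.Agent.Y349.BX.Comp

/-!
# Line transversals of boxes: Helly and rainbow Helly numbers

For every `d ≥ 2`, and for every class `𝓑` of closed boxes of `ℝ^d` (degenerate boxes are allowed)
which contains all the translates of at least one box, the Helly number of line transversals for
finite families in `𝓑`, the Helly number for arbitrary families in `𝓑`, the rainbow (colourful) Helly
number for finite families and the rainbow Helly number for arbitrary families are all equal to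
`2^(d-1) (2d-1)`.

The upper bounds come from a rainbow version of Santaló's theorem (the lines of a direction class
are parametrised by convex sets of dimension `2d-2`, and the rainbow Helly theorem of Lovász and
Bárány, proved in `Y349/BX/CH.lean`, is applied in each of the `2^(d-1)` classes) and from compactness;
the lower bounds from the family constructed in the file `BoxLineHelly`, whose boxes are translates
of one cube, and from its images under diagonal maps.
-/

open Pool.Agent.Results.MP_5f7e36_co.BoxLineHelly (Hit)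

namespace Pool.Agent.Results.MP_5f7e36_co.RainbowTransversals

/-- A closed box `∏ [a i, b i]` with `a i ≤ b i`, possibly degenerate. -/
def IsClosedBox {d : ℕ} (B : Set (Fin d → ℝ)) : Prop :=
  ∃ a b : Fin d → ℝ, (∀ i, a i ≤ b i) ∧ B = {x | ∀ i, a i ≤ x i ∧ x i ≤ b i}

/-- A box `∏ [a i, b i]` with `a i < b i`. -/
def IsBox {d : ℕ} (B : Set (Fin d → ℝ)) : Prop :=
  ∃ a b : Fin d → ℝ, (∀ i, a i < b i) ∧ B = {x | ∀ i, a i ≤ x i ∧ x i ≤ b i}

/-- Some line `{p + t v}` (`v ≠ 0`) meets every member of `F`. -/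
def HasLineTransversal {d : ℕ} (F : Set (Set (Fin d → ℝ))) : Prop :=
  ∃ p v : Fin d → ℝ, v ≠ 0 ∧ ∀ B ∈ F, ∃ t : ℝ, p + t • v ∈ B

/-- The classes of boxes considered: all the members of `𝓑` are closed boxes, and `𝓑` contains all
the translates of at least one box `Q` with nonempty interior. -/
def Admissible {d : ℕ} (𝓑 : Set (Set (Fin d → ℝ))) : Prop :=
  (∀ B ∈ 𝓑, IsClosedBox B) ∧ ∃ Q : Set (Fin d → ℝ), IsBox Q ∧ ∀ x : Fin d → ℝ, {y | y - x ∈ Q} ∈ 𝓑

/-- Helly property of order `h` for finite families: if every subfamily with at most `h` members of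
a finite family of members of `𝓑` has a line transversal, then so has the whole family. -/
def HellyFin {d : ℕ} (𝓑 : Set (Set (Fin d → ℝ))) (h : ℕ) : Prop :=
  ∀ F : Set (Set (Fin d → ℝ)), F ⊆ 𝓑 → F.Finite →
    (∀ G ⊆ F, G.Finite → G.ncard ≤ h → HasLineTransversal G) → HasLineTransversal F

/-- Helly property of order `h` for arbitrary (finite or infinite) families. -/
def HellyAll {d : ℕ} (𝓑 : Set (Set (Fin d → ℝ))) (h : ℕ) : Prop :=
  ∀ F : Set (Set (Fin d → ℝ)), F ⊆ 𝓑 →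
    (∀ G ⊆ F, G.Finite → G.ncard ≤ h → HasLineTransversal G) → HasLineTransversal F

/-- Rainbow Helly property with `m` colours, for finite families: if `F 0, ..., F (m-1)` are finite
families of members of `𝓑` and every rainbow choice `B i ∈ F i` (`i < m`) has a common line
transversal, then one of the families `F i` has a line transversal. -/
def RainbowFin {d : ℕ} (𝓑 : Set (Set (Fin d → ℝ))) (m : ℕ) : Prop :=
  ∀ F : Fin m → Set (Set (Fin d → ℝ)), (∀ i, F i ⊆ 𝓑) → (∀ i, (F i).Finite) →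
    (∀ B : Fin m → Set (Fin d → ℝ), (∀ i, B i ∈ F i) → HasLineTransversal (Set.range B)) →
    ∃ i, HasLineTransversal (F i)

/-- Rainbow Helly property with `m` colours, for arbitrary families. -/
def RainbowAll {d : ℕ} (𝓑 : Set (Set (Fin d → ℝ))) (m : ℕ) : Prop :=
  ∀ F : Fin m → Set (Set (Fin d → ℝ)), (∀ i, F i ⊆ 𝓑) →
    (∀ B : Fin m → Set (Fin d → ℝ), (∀ i, B i ∈ F i) → HasLineTransversal (Set.range B)) →
    ∃ i, HasLineTransversal (F i)

lemma isCompact_of_closedBox {d : ℕ} {B : Set (Fin d → ℝ)} (h : IsClosedBox B) : IsCompact B := by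
  obtain ⟨a, b, _, rfl⟩ := h
  have : {x : Fin d → ℝ | ∀ i, a i ≤ x i ∧ x i ≤ b i} = Set.Icc a b := by
    ext x
    simp only [Set.mem_ofPred_eq, Set.mem_Icc, Pi.le_def]
    exact forall_and
  rw [this]
  exact isCompact_Icc

/-- the rainbow theorem -/
theorem rainbow_upper {n : ℕ} {𝓑 : Set (Set (Fin (n+1) → ℝ))} (h𝓑 : ∀ B ∈ 𝓑, IsClosedBox B) :
    RainbowAll 𝓑 (2 ^ n * (2 * n + 1)) := by
  classical
  intro F hF hB
  by_contra hcon
  push Not at hcon
  -- finite subfamilies without transversals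
  have h1 : ∀ i, ∃ G ⊆ F i, G.Finite ∧ ¬ HasLineTransversal G := by
    intro i
    by_contra h2
    push Not at h2
    exact hcon i (Pool.Agent.Y349.BX.compactness (F i)
      (fun B hBi => isCompact_of_closedBox (h𝓑 B (hF i hBi))) (fun G hG hGf => h2 G hG hGf))
  choose G hGF hGfin hG using h1
  let e : Pool.Agent.Y349.BX.Col n ≃ Fin (2 ^ n * (2 * n + 1)) :=
    Fintype.equivFinOfCardEq (Pool.Agent.Y349.BX.card_Col n)
  have hft : ∀ i, Finite (G i) := fun i => (hGfin i).to_subtype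
  let _ : ∀ c : Pool.Agent.Y349.BX.Col n, Fintype (G (e c)) := fun c => Fintype.ofFinite _
  have hbox : ∀ (c : Pool.Agent.Y349.BX.Col n) (k : G (e c)), ∃ a b : Fin (n+1) → ℝ,
      (k : Set (Fin (n+1) → ℝ)) = {x | ∀ i, a i ≤ x i ∧ x i ≤ b i} := by
    intro c k
    obtain ⟨a, b, _, h⟩ := h𝓑 k (hF _ (hGF _ k.2))
    exact ⟨a, b, h⟩
  choose a b hab using hbox
  obtain ⟨c, p, v, hv, hk⟩ := Pool.Agent.Y349.BX.rainbow_fin (κ := fun c => G (e c)) a b (by
    intro f
    have hmem : ∀ i, ((f (e.symm i)).1 : Set (Fin (n+1) → ℝ)) ∈ F i := by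
      intro i
      have h2 := hGF _ (f (e.symm i)).2
      have h3 : F (e (e.symm i)) = F i := by rw [e.apply_symm_apply]
      rw [← h3]
      exact h2
    obtain ⟨p, v, hv, h⟩ := hB (fun i => (f (e.symm i)).1) hmem
    refine ⟨p, v, hv, fun c => ?_⟩
    have key : ∀ c', c' = c → ((f c').1 : Set (Fin (n+1) → ℝ)) = (f c).1 := by
      rintro _ rfl; rfl
    obtain ⟨t, ht⟩ := h (f c).1 ⟨e c, key _ (e.symm_apply_apply c)⟩
    rw [hab c (f c)] at ht
    exact ⟨t, fun i => by simpa using ht i⟩)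
  refine hG (e c) ⟨p, v, hv, fun B hBG => ?_⟩
  obtain ⟨t, ht⟩ := hk ⟨B, hBG⟩
  refine ⟨t, ?_⟩
  have := hab c ⟨B, hBG⟩
  simp only at this
  rw [this]
  intro i
  simpa using ht i

/-- the critical families -/
theorem critical {n : ℕ} (hn : 0 < n) {𝓑 : Set (Set (Fin (n+1) → ℝ))} {Q : Set (Fin (n+1) → ℝ)}
    (hQ : IsBox Q) (h𝓑 : ∀ x : Fin (n+1) → ℝ, {y | y - x ∈ Q} ∈ 𝓑) :
    ∃ F : Set (Set (Fin (n+1) → ℝ)), F ⊆ 𝓑 ∧ F.Finite ∧ ¬ HasLineTransversal F ∧
      ∀ G ⊆ F, G.Finite → G.ncard < 2 ^ n * (2 * n + 1) → HasLineTransversal G := by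
  classical
  obtain ⟨a, b, hab, rfl⟩ := hQ
  obtain ⟨K, hK, x, hcard, h1, h2⟩ := Pool.Agent.Y349.BX.translates hn a b hab
  have hin : ∀ (p v : Fin (n+1) → ℝ) (t : ℝ) (k : K),
      p + t • v ∈ {y : Fin (n+1) → ℝ | y - x k ∈ {x | ∀ i, a i ≤ x i ∧ x i ≤ b i}} ↔
      ∀ i, a i ≤ p i + t * v i - x k i ∧ p i + t * v i - x k i ≤ b i := by
    intro p v t k
    simp only [Set.mem_ofPred_eq, Pi.sub_apply, Pi.add_apply, Pi.smul_apply, smul_eq_mul]
  refine ⟨Set.range fun k : K =>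
    {y : Fin (n+1) → ℝ | y - x k ∈ {x | ∀ i, a i ≤ x i ∧ x i ≤ b i}}, ?_, Set.finite_range _, ?_, ?_⟩
  · rintro _ ⟨k, rfl⟩
    exact h𝓑 _
  · rintro ⟨p, v, hv, h⟩
    refine h2 ⟨p, v, hv, fun k => ?_⟩
    obtain ⟨t, ht⟩ := h _ ⟨k, rfl⟩
    exact ⟨t, (hin p v t k).1 ht⟩
  · intro G hG hGf hGc
    have hpre : ∀ g : Set (Fin (n+1) → ℝ), g ∈ G → ∃ k : K,
        {y : Fin (n+1) → ℝ | y - x k ∈ {x | ∀ i, a i ≤ x i ∧ x i ≤ b i}} = g :=
      fun g hg => hG hg
    have hne : Nonempty K := Fintype.card_pos_iff.1 (by rw [hcard]; positivity)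
    choose! f hf using hpre
    obtain ⟨k0, hk0⟩ : ∃ k0, k0 ∉ f '' G := by
      by_contra hcon
      push Not at hcon
      have h3 : f '' G = Set.univ := Set.eq_univ_iff_forall.2 hcon
      have h4 : (f '' G).ncard ≤ G.ncard := Set.ncard_image_le hGf
      rw [h3, Set.ncard_univ, Nat.card_eq_fintype_card, hcard] at h4
      omega
    obtain ⟨p, v, hv, h⟩ := h1 k0
    refine ⟨p, v, hv, fun g hg => ?_⟩
    have hne' : f g ≠ k0 := fun h' => hk0 (h' ▸ Set.mem_image_of_mem f hg)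
    obtain ⟨t, ht⟩ := h (f g) hne'
    refine ⟨t, ?_⟩
    rw [← hf g hg]
    exact (hin p v t (f g)).2 ht

/-- For every `d ≥ 2`: the class of all boxes is admissible, and for every admissible class `𝓑` the
Helly numbers and the rainbow Helly numbers of line transversals, for finite families and for
arbitrary families, are all equal to `2^(d-1) (2d-1)`. -/
theorem result : ∀ d : ℕ, 2 ≤ d → Admissible {B : Set (Fin d → ℝ) | IsBox B} ∧
    ∀ 𝓑 : Set (Set (Fin d → ℝ)), Admissible 𝓑 →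
      IsLeast {h : ℕ | HellyFin 𝓑 h} (2 ^ (d - 1) * (2 * d - 1)) ∧
      IsLeast {h : ℕ | HellyAll 𝓑 h} (2 ^ (d - 1) * (2 * d - 1)) ∧
      IsLeast {m : ℕ | RainbowFin 𝓑 m} (2 ^ (d - 1) * (2 * d - 1)) ∧
      IsLeast {m : ℕ | RainbowAll 𝓑 m} (2 ^ (d - 1) * (2 * d - 1)) := by
  intro d hd
  obtain ⟨n, rfl⟩ : ∃ n, d = n + 1 := ⟨d - 1, by omega⟩
  have hn : 0 < n := by omega
  have e1 : 2 * (n + 1) - 1 = 2 * n + 1 := by omega
  have e2 : n + 1 - 1 = n := by omega
  rw [e1, e2]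
  refine ⟨⟨?_, {x | ∀ i, 0 ≤ x i ∧ x i ≤ 1}, ⟨fun _ => 0, fun _ => 1, fun _ => one_pos, rfl⟩, ?_⟩, ?_⟩
  · rintro B ⟨a, b, hab, rfl⟩
    exact ⟨a, b, fun i => (hab i).le, rfl⟩
  · intro x
    refine ⟨fun i => x i, fun i => x i + 1, fun i => by simp, ?_⟩
    ext y
    simp only [Set.mem_ofPred_eq, Pi.sub_apply]
    refine forall_congr' fun i => ?_
    constructor
    · rintro ⟨h1, h2⟩; exact ⟨by linarith, by linarith⟩
    · rintro ⟨h1, h2⟩; exact ⟨by linarith, by linarith⟩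
  · rintro 𝓑 ⟨h𝓑, Q, hQ, hQ𝓑⟩
    obtain ⟨F, hF𝓑, hFfin, hno, hcrit⟩ := critical hn hQ hQ𝓑
    -- the four upper bounds
    have u4 : RainbowAll 𝓑 (2 ^ n * (2 * n + 1)) := rainbow_upper h𝓑
    have u3 : RainbowFin 𝓑 (2 ^ n * (2 * n + 1)) := fun F hF _ h => u4 F hF h
    have u2 : HellyAll 𝓑 (2 ^ n * (2 * n + 1)) := by
      intro F hF h
      obtain ⟨_, hi⟩ := u4 (fun _ => F) (fun _ => hF) (fun B hB => h _ (by
        rintro _ ⟨i, rfl⟩
        exact hB i) (Set.finite_range _) (by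
        have h3 := Set.ncard_image_le (f := B) (Set.finite_univ (α := Fin (2 ^ n * (2 * n + 1))))
        rw [Set.image_univ, Set.ncard_univ, Nat.card_eq_fintype_card, Fintype.card_fin] at h3
        exact h3))
      exact hi
    have u1 : HellyFin 𝓑 (2 ^ n * (2 * n + 1)) := fun F hF _ h => u2 F hF h
    -- the four lower bounds
    have l1 : ∀ h, HellyFin 𝓑 h → 2 ^ n * (2 * n + 1) ≤ h := by
      intro h hh
      by_contra hcon
      push Not at hcon
      exact hno (hh F hF𝓑 hFfin fun G hG hGf hGc => hcrit G hG hGf (by omega))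
    have l3 : ∀ m, RainbowFin 𝓑 m → 2 ^ n * (2 * n + 1) ≤ m := by
      intro m hm
      by_contra hcon
      push Not at hcon
      obtain ⟨_, hi⟩ := hm (fun _ => F) (fun _ => hF𝓑) (fun _ => hFfin) (fun B hB => hcrit _ (by
        rintro _ ⟨i, rfl⟩
        exact hB i) (Set.finite_range _) (by
        have h3 := Set.ncard_image_le (f := B) (Set.finite_univ (α := Fin m))
        rw [Set.image_univ, Set.ncard_univ, Nat.card_eq_fintype_card, Fintype.card_fin] at h3
        omega))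
      exact hno hi
    refine ⟨⟨u1, fun h hh => l1 h hh⟩, ⟨u2, fun h hh => l1 h fun F hF _ h' => hh F hF h'⟩,
      ⟨u3, fun m hm => l3 m hm⟩, ⟨u4, fun m hm => l3 m fun F hF _ h' => hm F hF h'⟩⟩

end Pool.Agent.Results.MP_5f7e36_co.RainbowTransversals
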